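import Pool.Agent.Lib_helper53.BS.Defs

/-! Block KST: Kovari-Sos-Turan, qualitative. -/

set_option autoImplicit false

namespace Pool.Agent.BS

open Finset Filter MeasureTheory Topology
open scoped Classical

theorem kst_swap (E : ℕ → ℕ → Prop) (S T : Finset ℕ) :
    ∑ a ∈ S, (#{b ∈ T | E a b} : ℝ) = ∑ b ∈ T, (#{a ∈ S | E a b} : ℝ) := by
  simp only [Finset.card_filter, Nat.cast_sum]
  exact Finset.sum_comm

/-- counting the elements of large weight -/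
theorem kst_large (S : Finset ℕ) (f : ℕ → ℝ) (c C : ℝ) (hC : ∀ a ∈ S, f a ≤ C) (hc : 0 ≤ c) :
    ∑ a ∈ S, f a ≤ (#{a ∈ S | c ≤ f a} : ℝ) * C + (#S : ℝ) * c := by
  rw [← Finset.sum_filter_add_sum_filter_not S (fun a => c ≤ f a) f]
  refine add_le_add ?_ ?_
  · rw [← nsmul_eq_mul]
    exact Finset.sum_le_card_nsmul _ _ _ (fun a ha => hC a (Finset.mem_filter.1 ha).1)
  · calc ∑ a ∈ S with ¬c ≤ f a, f a ≤ #{a ∈ S | ¬c ≤ f a} • c :=
          Finset.sum_le_card_nsmul _ _ _ (fun a ha => (not_le.1 (Finset.mem_filter.1 ha).2).le)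
      _ ≤ (#S : ℝ) * c := by
          rw [nsmul_eq_mul]
          exact mul_le_mul_of_nonneg_right (Nat.cast_le.2 (Finset.card_filter_le _ _)) hc

theorem kst_pr (k : ℕ) (α : ℝ) (hα : 0 < α) : ∃ L₀ : ℕ, ∀ L ≥ L₀, ∀ (X Y : Finset ℕ)
    (E : ℕ → ℕ → Prop), #X = L → #Y = 2 * L →
    α * (L : ℝ) ^ 2 ≤ ∑ a ∈ X, (#{b ∈ Y | E a b} : ℝ) →
    ∃ A ⊆ X, ∃ B ⊆ Y, #A = k ∧ #B = k ∧ ∀ a ∈ A, ∀ b ∈ B, E a b := by
  obtain ⟨M, hM⟩ := exists_nat_ge (8 * k / α + 1)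
  obtain ⟨L₀, hL₀⟩ := exists_nat_ge (2 * M / α + 8 * (k * 2 ^ M) / α + 1)
  refine ⟨L₀, fun L hL X Y E hX hY hE => ?_⟩
  have hL1 : (L₀ : ℝ) ≤ L := Nat.cast_le.2 hL
  have p1 : (0 : ℝ) ≤ 2 * M / α := by positivity
  have p2 : (0 : ℝ) ≤ 8 * (k * 2 ^ M) / α := by positivity
  have p3 : (0 : ℝ) ≤ 8 * k / α := by positivity
  have hLp : (0 : ℝ) < L := by linarith
  have hMp : (0 : ℝ) < M := by linarith
  have q1 : 2 * (M : ℝ) ≤ α * L := by
    have : 2 * (M : ℝ) / α ≤ L := by linarith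
    rw [div_le_iff₀ hα] at this
    linarith
  have q2 : 8 * ((k : ℝ) * 2 ^ M) ≤ α * L := by
    have : 8 * ((k : ℝ) * 2 ^ M) / α ≤ L := by linarith
    rw [div_le_iff₀ hα] at this
    linarith
  have q3 : 8 * (k : ℝ) ≤ α * M := by
    have : 8 * (k : ℝ) / α ≤ M := by linarith
    rw [div_le_iff₀ hα] at this
    linarith
  -- the vertices of large degree
  rw [kst_swap E X Y] at hE
  have h1 := kst_large Y (fun b => (#{a ∈ X | E a b} : ℝ)) (α / 4 * L) L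
    (fun b _ => by rw [← hX]; exact Nat.cast_le.2 (Finset.card_filter_le _ _)) (by positivity)
  have h1' := hE.trans h1
  rw [hY] at h1'
  push_cast at h1'
  have h2 : (M : ℝ) ≤ #{b ∈ Y | α / 4 * L ≤ (#{a ∈ X | E a b} : ℝ)} := by
    by_contra h
    push Not at h
    nlinarith [mul_lt_mul_of_pos_right h hLp, mul_le_mul_of_nonneg_right q1 hLp.le]
  obtain ⟨Z, hZ, hZM⟩ := Finset.exists_subset_card_eq (Nat.cast_le.1 h2)
  -- the vertices with many neighbours in Z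
  have h3 : (M : ℝ) * (α / 4 * L) ≤ ∑ b ∈ Z, (#{a ∈ X | E a b} : ℝ) := by
    rw [← hZM, ← nsmul_eq_mul]
    exact Finset.card_nsmul_le_sum _ _ _ (fun b hb => (Finset.mem_filter.1 (hZ hb)).2)
  rw [← kst_swap E X Z] at h3
  have h4 := kst_large X (fun a => (#{b ∈ Z | E a b} : ℝ)) k M
    (fun a _ => by rw [← hZM]; exact Nat.cast_le.2 (Finset.card_filter_le _ _)) (Nat.cast_nonneg _)
  have h4' := h3.trans h4
  rw [hX] at h4'
  have h5 : ((2 ^ M * k : ℕ) : ℝ) ≤ #{a ∈ X | (k : ℝ) ≤ (#{b ∈ Z | E a b} : ℝ)} := by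
    push_cast
    by_contra h
    push Not at h
    nlinarith [mul_lt_mul_of_pos_right h hMp, mul_le_mul_of_nonneg_right q3 hLp.le,
      mul_le_mul_of_nonneg_right q2 hMp.le]
  have h6 : ∀ a : ℕ, ∃ B : Finset ℕ, B ⊆ Z ∧
      ((k : ℝ) ≤ (#{b ∈ Z | E a b} : ℝ) → #B = k ∧ ∀ b ∈ B, E a b) := by
    intro a
    by_cases h : (k : ℝ) ≤ (#{b ∈ Z | E a b} : ℝ)
    · obtain ⟨B, hB, hBk⟩ := Finset.exists_subset_card_eq (Nat.cast_le.1 h)
      exact ⟨B, fun b hb => (Finset.mem_filter.1 (hB hb)).1,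
        fun _ => ⟨hBk, fun b hb => (Finset.mem_filter.1 (hB hb)).2⟩⟩
    · exact ⟨∅, Finset.empty_subset _, fun h' => absurd h' h⟩
  choose F hF1 hF2 using h6
  obtain ⟨B, hB, hBc⟩ := Finset.exists_le_card_fiber_of_mul_le_card_of_maps_to
    (s := {a ∈ X | (k : ℝ) ≤ (#{b ∈ Z | E a b} : ℝ)}) (t := Z.powerset) (f := F) (n := k)
    (fun a _ => Finset.mem_powerset.2 (hF1 a)) ⟨∅, Finset.empty_mem_powerset _⟩
    (by rw [Finset.card_powerset, hZM]; exact Nat.cast_le.1 h5)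
  obtain ⟨A, hA, hAk⟩ := Finset.exists_subset_card_eq hBc
  have hA1 : ∀ a ∈ A, a ∈ X ∧ (k : ℝ) ≤ (#{b ∈ Z | E a b} : ℝ) ∧ F a = B := by
    intro a ha
    have h := Finset.mem_filter.1 (hA ha)
    exact ⟨(Finset.mem_filter.1 h.1).1, (Finset.mem_filter.1 h.1).2, h.2⟩
  rcases Nat.eq_zero_or_pos k with hk | hk
  · subst hk
    exact ⟨∅, Finset.empty_subset _, ∅, Finset.empty_subset _, rfl, rfl, by simp⟩
  · obtain ⟨a, ha⟩ : A.Nonempty := Finset.card_pos.1 (by omega)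
    obtain ⟨-, c2, c3⟩ := hA1 a ha
    refine ⟨A, fun a ha => (hA1 a ha).1, B, fun b hb => ?_, hAk, ?_, fun a ha b hb => ?_⟩
    · exact (Finset.mem_filter.1 (hZ (Finset.mem_powerset.1 hB hb))).1
    · rw [← c3]
      exact (hF2 a c2).1
    · obtain ⟨-, d2, d3⟩ := hA1 a ha
      rw [← d3] at hb
      exact (hF2 a d2).2 b hb

end Pool.Agent.BS
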