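import Pool.Agent.Lib_helper53.BS.Defs

/-! Block SYN: Bohr sets are syndetic. -/

set_option autoImplicit false

namespace Pool.Agent.BS

open Finset Filter MeasureTheory Topology
open scoped Classical

theorem syn_lt (Q : ℕ) (hQ : 0 < Q) (y : ℝ) : ⌊(Q : ℝ) * Int.fract y⌋₊ < Q := by
  have h1 := Int.fract_lt_one y
  have hQ' : (0 : ℝ) < Q := Nat.cast_pos.2 hQ
  rw [Nat.floor_lt (mul_nonneg hQ'.le (Int.fract_nonneg y))]
  nlinarith

theorem syn_close (Q : ℕ) (ε : ℝ) (hε : 0 < ε) (hQ : 1 / ε < Q) (y z : ℝ)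
    (h : ⌊(Q : ℝ) * Int.fract y⌋₊ = ⌊(Q : ℝ) * Int.fract z⌋₊) :
    |(y - z) - round (y - z)| < ε := by
  have hQ' : (0 : ℝ) < Q := lt_trans (by positivity) hQ
  have h1 := Nat.floor_le (mul_nonneg hQ'.le (Int.fract_nonneg y))
  have h2 := Nat.lt_floor_add_one ((Q : ℝ) * Int.fract y)
  have h3 := Nat.floor_le (mul_nonneg hQ'.le (Int.fract_nonneg z))
  have h4 := Nat.lt_floor_add_one ((Q : ℝ) * Int.fract z)
  rw [h] at h1 h2
  have h5 : |(Q : ℝ) * (Int.fract y - Int.fract z)| < 1 := by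
    rw [mul_sub, abs_lt]
    constructor <;> linarith
  rw [abs_mul, abs_of_pos hQ'] at h5
  have h6 : |Int.fract y - Int.fract z| < ε := by
    rw [div_lt_iff₀ hε] at hQ
    by_contra h7
    push Not at h7
    nlinarith
  refine lt_of_le_of_lt ((round_le (y - z) (⌊y⌋ - ⌊z⌋)).trans (le_of_eq ?_)) h6
  congr 1
  push_cast
  unfold Int.fract
  ring

theorem syndetic_pr (k : ℕ) (θ : Fin k → ℝ) (ε : ℝ) (hε : 0 < ε) : ∃ H : ℕ, ∀ x : ℕ,
    ∃ d ∈ Set.Ioc x (x + H), ∀ i, |d * θ i - round (d * θ i)| < ε := by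
  obtain ⟨Q, hQ⟩ := exists_nat_gt (1 / ε)
  have hQ0 : 0 < Q := by
    have : (0 : ℝ) < Q := lt_trans (by positivity) hQ
    exact_mod_cast this
  let c : ℕ → (Fin k → Fin Q) := fun t i =>
    ⟨⌊(Q : ℝ) * Int.fract ((t : ℝ) * θ i)⌋₊, syn_lt Q hQ0 _⟩
  let rep : (Fin k → Fin Q) → ℕ := fun u => if h : ∃ t, c t = u then h.choose else 0
  have hrep : ∀ t, c (rep (c t)) = c t := by
    intro t
    have h : ∃ t', c t' = c t := ⟨t, rfl⟩
    have e : rep (c t) = h.choose := dif_pos h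
    rw [e]
    exact h.choose_spec
  refine ⟨Finset.univ.sup rep + 1, fun x => ?_⟩
  have hr : rep (c (x + (Finset.univ.sup rep + 1))) ≤ Finset.univ.sup rep :=
    Finset.le_sup (Finset.mem_univ _)
  refine ⟨x + (Finset.univ.sup rep + 1) - rep (c (x + (Finset.univ.sup rep + 1))),
    ⟨by omega, by omega⟩, fun i => ?_⟩
  have h2 := congrArg Fin.val (congrFun (hrep (x + (Finset.univ.sup rep + 1))) i)
  rw [Nat.cast_sub (by omega), sub_mul]
  exact syn_close Q ε hε hQ _ _ h2.symm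

end Pool.Agent.BS
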